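import Pool.Agent.Helper42.PW.Goals1
import Pool.Agent.Helper32.RD.VAL

/-!
# Packet PW-L_GVL: local functionals give a local system

The proof follows `Pool/Agent/Helper32/RD/VAL.lean`.
-/

set_option autoImplicit false

namespace Pool.Agent.Helper46.PW

open NumberField Polynomial Module IsDedekindDomain
open Pool.Agent.Helper51.RP Pool.Agent.Helper42.RD Pool.Agent.Helper42.PP Pool.Agent.Helper42.PP1
open Pool.Agent.Helper42.PW Pool.Agent.Helper32.RDV

lemma ne_m0 (p : ℕ) [hp : Fact p.Prime] {M : Type} [Field M] [NumberField M]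
    (s : Finset (HeightOneSpectrum (𝓞 M))) :
    Ideal.span {((p : ℕ) : 𝓞 M)} ^ 3 * ∏ w ∈ s, w.asIdeal ≠ ⊥ := by
  have hpO : ((p : ℕ) : 𝓞 M) ≠ 0 := Nat.cast_ne_zero.2 hp.out.ne_zero
  rw [Ne, ← Ideal.zero_eq_bot, mul_eq_zero, not_or]
  constructor
  · apply pow_ne_zero
    rw [Ne, Ideal.zero_eq_bot, Ideal.span_singleton_eq_bot]
    exact hpO
  · rw [Finset.prod_eq_zero_iff]
    rintro ⟨w, -, hw⟩
    exact w.ne_bot hw

lemma supp_top (p : ℕ) {M : Type} [Field M] [NumberField M]
    (s : Finset (HeightOneSpectrum (𝓞 M))) (w : HeightOneSpectrum (𝓞 M)) (hws : w ∉ s)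
    (hp1 : ¬ w.valuation M (p : M) < 1) :
    w.asIdeal ⊔ Ideal.span {((p : ℕ) : 𝓞 M)} ^ 3 * ∏ w ∈ s, w.asIdeal = ⊤ := by
  have h1 : w.asIdeal ⊔ Ideal.span {((p : ℕ) : 𝓞 M)} ^ 3 = ⊤ := by
    apply Ideal.sup_pow_eq_top
    by_contra hnt
    have h2 : Ideal.span {((p : ℕ) : 𝓞 M)} ≤ w.asIdeal := by
      have h3 := w.isMaximal.eq_of_le (J := w.asIdeal ⊔ Ideal.span {((p : ℕ) : 𝓞 M)})
        hnt le_sup_left
      rw [h3]
      exact le_sup_right
    have h4 : ((p : ℕ) : 𝓞 M) ∈ w.asIdeal := h2 (Ideal.mem_span_singleton_self _)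
    rw [← mem_iff_val] at h4
    apply hp1
    have e : (((p : ℕ) : 𝓞 M) : M) = (p : M) := map_natCast (algebraMap (𝓞 M) M) p
    rwa [e] at h4
  rw [Ideal.sup_mul_eq_of_coprime_left h1]
  apply Ideal.sup_prod_eq_top
  intro w' hw'
  have hne : w.asIdeal ≠ w'.asIdeal := by
    intro h
    apply hws
    rw [HeightOneSpectrum.ext h]
    exact hw'
  exact w.isMaximal.coprime_of_ne w'.isMaximal hne

lemma ray_cl (p : ℕ) {M : Type} [Field M] [NumberField M]
    (s : Finset (HeightOneSpectrum (𝓞 M))) (α : 𝓞 M)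
    (hα : α - 1 ∈ Ideal.span {((p : ℕ) : 𝓞 M)} ^ 3 * ∏ w ∈ s, w.asIdeal)
    (w : HeightOneSpectrum (𝓞 M)) (hw : w ∈ s) : Cl p w (α : M) := by
  have e : ((α - 1 : 𝓞 M) : M) = (α : M) - 1 := by push_cast; rfl
  have h0 := Ideal.mul_le_inf hα
  rw [Ideal.mem_inf] at h0
  have h1 : α - 1 ∈ w.asIdeal :=
    (Ideal.prod_le_inf.trans (Finset.inf_le hw) : ∏ w ∈ s, w.asIdeal ≤ w.asIdeal) h0.2
  have h3 := h0.1
  rw [Ideal.span_singleton_pow, Ideal.mem_span_singleton] at h3
  obtain ⟨c, hc⟩ := h3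
  unfold Cl
  rw [← e]
  refine ⟨(mem_iff_val w _).2 h1, ?_⟩
  rw [hc]
  have e2 : ((((p : ℕ) : 𝓞 M) ^ 3 * c : 𝓞 M) : M) = (p : M) ^ 3 * (c : M) := by
    push_cast
    rfl
  rw [e2, map_mul, map_pow]
  have h4 : w.valuation M (c : M) ≤ 1 := w.valuation_le_one c
  calc w.valuation M (p : M) ^ 3 * w.valuation M (c : M)
      ≤ w.valuation M (p : M) ^ 3 * 1 := mul_le_mul_right h4 _
    _ = _ := mul_one _

theorem l_gvl : Pool.Agent.Helper42.PW.L_GVL := by
  intro p hp k _ _ _ K M _ _ _ _ _ δ T R S θ hSfin hSst hSp hRS hRst hfree hRT hθ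
  classical
  obtain ⟨rep, hrep, hrepeq⟩ := exists_rep (K := K) (M := M)
  choose γ hγ using hrep
  have hp0 : (p : M) ≠ 0 := Nat.cast_ne_zero.2 hp.out.ne_zero
  have hrepR : ∀ w ∈ R, rep w ∈ R := by
    intro w hw
    exact hRst w hw _ (conj_symm ⟨γ w, hγ w⟩)
  have act_val : ∀ (g : M ≃ₐ[K] M) (x : Mˣ),
      ((Pool.Agent.Helper42.PP.act g x : Mˣ) : M) = g (x : M) := fun g x => rfl
  have act_mul : ∀ (g : M ≃ₐ[K] M) (x y : Mˣ), Pool.Agent.Helper42.PP.act g (x * y) =
      Pool.Agent.Helper42.PP.act g x * Pool.Agent.Helper42.PP.act g y := fun g x y => map_mul _ _ _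
  have hinv : ∀ (g : M ≃ₐ[K] M) (y : M), g (g⁻¹ y) = y := fun g y => g.apply_symm_apply y
  have hinv' : ∀ (g : M ≃ₐ[K] M) (y : M), g⁻¹ (g y) = y := fun g y => g.symm_apply_apply y
  let v : Mˣ → HeightOneSpectrum (𝓞 M) → ZMod p := fun x w =>
    if w ∈ R then θ (rep w) (Pool.Agent.Helper42.PP.act (γ w)⁻¹ x)
      else ((ordv w (x : M) : ℤ) : ZMod p)
  have hvR : ∀ x w, w ∈ R → v x w = θ (rep w) (Pool.Agent.Helper42.PP.act (γ w)⁻¹ x) := by
    intro x w hw
    show (if w ∈ R then _ else _) = _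
    rw [if_pos hw]
  have hvN : ∀ x w, w ∉ R → v x w = ((ordv w (x : M) : ℤ) : ZMod p) := by
    intro x w hw
    show (if w ∈ R then _ else _) = _
    rw [if_neg hw]
  have vadd : ∀ x y w, v (x * y) w = v x w + v y w := by
    intro x y w
    by_cases hw : w ∈ R
    · rw [hvR _ w hw, hvR _ w hw, hvR _ w hw, act_mul, (hθ _ (hrepR w hw)).1]
    · rw [hvN _ w hw, hvN _ w hw, hvN _ w hw, Units.val_mul, ordv_mul w x.ne_zero y.ne_zero]
      push_cast
      rfl
  have vclose : ∀ (x : Mˣ) w, Cl p w (x : M) → v x w = 0 := by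
    intro x w h
    by_cases hw : w ∈ R
    · rw [hvR _ w hw]
      apply (hθ _ (hrepR w hw)).2.2
      have e1 : (rep w).valuation M
          (((Pool.Agent.Helper42.PP.act (γ w)⁻¹ x : Mˣ) : M) - 1) =
          w.valuation M ((x : M) - 1) := by
        rw [← hγ w, act_val, map_sub, map_one, hinv]
      have e2 : (rep w).valuation M (p : M) = w.valuation M (p : M) := by
        rw [← hγ w, map_natCast]
      unfold Cl at h ⊢
      rw [e1, e2]
      exact h
    · rw [hvN _ w hw, ordv_eq_zero w (val_one_of_close w h.1)]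
      simp
  have vloc : ∀ (x y : Mˣ) w, w.valuation M ((x : M) - y) < w.valuation M (y : M) →
      w.valuation M ((x : M) - y) ≤ w.valuation M (p : M) ^ 3 * w.valuation M (y : M) →
      v x w = v y w := by
    intro x y w h h'
    have hy0 : (y : M) ≠ 0 := y.ne_zero
    have hyv : w.valuation M (y : M) ≠ 0 := by rwa [Ne, map_eq_zero]
    have h1 : Cl p w ((x / y : Mˣ) : M) := by
      have e : ((x / y : Mˣ) : M) - 1 = ((x : M) - y) / y := by
        rw [Units.val_div_eq_div_val]; field_simp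
      unfold Cl
      rw [e, map_div₀, div_lt_iff₀ (zero_lt_iff.2 hyv), one_mul,
        div_le_iff₀ (zero_lt_iff.2 hyv)]
      exact ⟨h, h'⟩
    have h3 := vadd (x / y) y w
    rw [div_mul_cancel, vclose _ w h1, zero_add] at h3
    exact h3
  have vone : ∀ w, v 1 w = 0 := by
    intro w
    exact vclose 1 w (by unfold Cl; simp)
  have θpow : ∀ w ∈ R, ∀ (x : Mˣ) (n : ℕ), θ w (x ^ n) = n * θ w x := by
    intro w hw x n
    have h1 : θ w 1 = 0 := (hθ w hw).2.2 1 (by unfold Cl; simp)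
    induction n with
    | zero => rw [pow_zero, h1]; simp
    | succ n ih => rw [pow_succ, (hθ w hw).1, ih]; push_cast; ring
  have θsurj : ∀ w ∈ R, ∀ c : ZMod p, ∃ x, θ w x = c := by
    intro w hw c
    obtain ⟨x, hx⟩ := (hθ w hw).2.1
    refine ⟨x ^ (c / θ w x).val, ?_⟩
    have : NeZero p := ⟨hp.out.ne_zero⟩
    rw [θpow w hw, ZMod.natCast_val, ZMod.cast_id', id, div_mul_cancel₀ c hx]
  refine ⟨Ideal.span {((p : ℕ) : 𝓞 M)} ^ 3 * ∏ w ∈ hSfin.toFinset, w.asIdeal, v, ?_,
    fun w _ hw x => hvN x w hw, fun w hw => ⟨rep w, hrepR w hw, γ w, hγ w, fun x => hvR x w hw⟩⟩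
  refine ⟨hSfin, hSst, fun w hw => hSp w hw, fun x y w _ => vadd x y w, ?_, ?_, ?_, ?_, ?_, ?_⟩
  · -- equivariance
    intro x w hw w' hww'
    have hconj : ConjP K w w' := ⟨δ, hww'⟩
    by_cases hwR : w ∈ R
    · have hwR' : w' ∈ R := hRst w hwR _ (conj_symm hconj)
      rw [hvR _ w hwR, hvR _ w' hwR', hrepeq w w' hconj]
      congr 1
      apply Units.ext
      rw [act_val, act_val]
      show (γ w).symm (δ (x : M)) = (γ w').symm (x : M)
      have hr : rep w = rep w' := hrepeq w w' hconj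
      have h1 : ∀ y : M, (rep w).valuation M (((γ w)⁻¹ * δ * γ w') y) = (rep w).valuation M y := by
        intro y
        rw [← hγ w]
        have e1 : γ w (((γ w)⁻¹ * δ * γ w') y) = δ (γ w' y) := by
          show γ w ((γ w).symm (δ (γ w' y))) = _
          rw [AlgEquiv.apply_symm_apply]
        rw [e1, hww', hγ w', hr]
      have h2 := hfree (rep w) (hrepR w hwR) _ h1
      have h3 : δ * γ w' = γ w := by
        have := congrArg (fun z => γ w * z) h2
        simp only [mul_one] at this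
        rw [← this]
        group
      have h4 : ∀ z : M, (γ w).symm (δ z) = (γ w').symm z := by
        intro z
        rw [AlgEquiv.symm_apply_eq, ← h3]
        show δ z = δ (γ w' ((γ w').symm z))
        rw [AlgEquiv.apply_symm_apply]
      exact h4 _
    · have hwR' : w' ∉ R := fun h => hwR (hRst w' h _ hconj)
      rw [hvN _ w hwR, hvN _ w' hwR']
      congr 1
      show ordv w (δ (x : M)) = ordv w' (x : M)
      unfold ordv
      rw [hww']
  · -- surj
    intro c
    have ht : ∀ w : HeightOneSpectrum (𝓞 M), ∃ t : Mˣ, v t w = c w := by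
      intro w
      by_cases hw : w ∈ R
      · obtain ⟨x, hx⟩ := θsurj _ (hrepR w hw) (c w)
        refine ⟨Pool.Agent.Helper42.PP.act (γ w) x, ?_⟩
        rw [hvR _ w hw, ← hx]
        congr 1
        apply Units.ext
        rw [act_val, act_val, hinv']
      · obtain ⟨π, hπ⟩ := w.valuation_exists_uniformizer M
        have hπ0 : π ≠ 0 := by
          rintro rfl
          rw [map_zero] at hπ
          exact WithZero.exp_ne_zero hπ.symm
        have h1 : ordv w π = 1 := by
          unfold ordv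
          rw [hπ]
          simp
        refine ⟨Units.mk0 π hπ0 ^ (c w).val, ?_⟩
        rw [hvN _ w hw, Units.val_pow_eq_pow_val, Units.val_mk0, ordv_pow, h1]
        have : NeZero p := ⟨hp.out.ne_zero⟩
        simp
    choose t ht using ht
    obtain ⟨y, hy⟩ := weakApproxUnits hSfin.toFinset t
      (fun w => w.valuation M (p : M) ^ 3 * w.valuation M (t w : M))
      (fun w => mul_ne_zero (pow_ne_zero _ (by rwa [Ne, map_eq_zero]))
        (by rw [Ne, map_eq_zero]; exact (t w).ne_zero))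
    refine ⟨y, ?_⟩
    intro w hw
    rw [← ht w]
    exact vloc y (t w) w (hy w (hSfin.mem_toFinset.2 hw)).2 (hy w (hSfin.mem_toFinset.2 hw)).1
  · -- approximation
    intro x hx
    set W : Set (HeightOneSpectrum (𝓞 M)) := {w | ∃ τ ∈ (above T : Set (M →+* k)), wt p τ = w}
      with hW
    obtain ⟨y, hy⟩ := weakApproxUnits hSfin.toFinset (fun w => if w ∈ W then x else 1)
      (fun w => w.valuation M ((p : M) ^ 3))
      (fun w => by rw [Ne, map_eq_zero]; exact pow_ne_zero _ hp0)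
    have hval : ∀ w : HeightOneSpectrum (𝓞 M),
        w.valuation M (((if w ∈ W then x else 1 : Mˣ)) : M) = 1 := by
      intro w
      by_cases hwW : w ∈ W
      · rw [if_pos hwW]
        obtain ⟨τ, hτ, rfl⟩ := hwW
        exact val_of_norm τ (hx τ hτ)
      · rw [if_neg hwW]
        simp
    refine ⟨y, ?_, ?_⟩
    · intro w hw
      have h1 := hy w (hSfin.mem_toFinset.2 hw)
      rw [vloc y _ w h1.2 (by rw [hval w, mul_one, ← map_pow]; exact h1.1)]
      by_cases hwW : w ∈ W
      · rw [if_pos hwW]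
        obtain ⟨τ, hτ, rfl⟩ := hwW
        have hnR : wt p τ ∉ R := by
          intro h
          exact hRT _ h τ hτ fun b => Iff.rfl
        rw [hvN _ _ hnR, ordv_eq_zero _ (val_of_norm τ (hx τ hτ))]
        simp
      · rw [if_neg hwW]
        exact vone w
    · intro τ hτ
      have hwS : wt p τ ∈ S := hSp _ (wt_p τ)
      have h1 := (hy (wt p τ) (hSfin.mem_toFinset.2 hwS)).1
      have hwW : wt p τ ∈ W := ⟨τ, hτ, rfl⟩
      rw [if_pos hwW] at h1
      have h2 := norm_small_of_val τ h1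
      have h3 : τ ((y / x : Mˣ) : M) - 1 = τ ((y : M) - x) / τ (x : M) := by
        have hx0 : τ (x : M) ≠ 0 := by rw [Ne, map_eq_zero]; exact x.ne_zero
        rw [Units.val_div_eq_div_val, map_div₀, map_sub]
        field_simp
      rw [h3, norm_div, hx τ hτ, div_one]
      exact h2
  · -- ne
    exact ne_m0 p hSfin.toFinset
  · -- supp
    intro w hw
    by_contra hwS
    apply hw
    apply supp_top p hSfin.toFinset w fun h => hwS (hSfin.mem_toFinset.1 h)
    intro h
    exact hwS (hSp w h)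
  · -- ray
    intro α x hx hα w hw
    apply vclose
    rw [hx]
    exact ray_cl p hSfin.toFinset α hα w (hSfin.mem_toFinset.2 hw)

end Pool.Agent.Helper46.PW
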